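import Pool.Agent.Helper19.QS.Grid
import Pool.Agent.Helper19.QS.Degree

/-!
# Graphs with queue-number at most three and unbounded stack-number

The graph `grid m`: the vertices are the points of `{0, …, m-1}³`, and two points are adjacent if their difference
is, up to sign, a unit vector or the sum of two different unit vectors.
-/

set_option autoImplicit false

namespace Pool.Agent.Results.MP_0feef2_co.ThreeQueues

open Pool.Agent.Helper19.QS

/-- For every `k` and every `m > 12 k³ + 2` the graph `grid m` has maximum degree at most `12`, it has a 3-queue
layout and it has no `k`-stack layout. -/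
theorem result (k m : ℕ) (hm : 12 * k ^ 3 + 2 < m) :
    (∀ v, ((grid m).neighborSet v).ncard ≤ 12) ∧ HasQueueLayout (grid m) 3 ∧ ¬ HasStackLayout (grid m) k :=
  ⟨degree_le m, queue_grid m (by omega), stack_grid m k hm⟩

end Pool.Agent.Results.MP_0feef2_co.ThreeQueues
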